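import Pool.Agent.K1H14.HD.Final

/-!
# The standard conjecture of Hodge type is a statement on polynomials in divisor classes

The proof: let `x ∈ CH^m(X)`, `dim X = 2m`, be primitive for the ample class `ξ`. Choose a vector
bundle `G` of rank `r` on `X` whose first nonzero Chern class is `c_m(G) = κ x`, and let `π : Y → X`
be the `r`-fold fibre power of `ℙ(G)`, with the classes `z_1, …, z_r` of `O(1)`. The Vandermonde
determinant `Δ = ∏_{k < l} (z_l - z_k)` satisfies `c_j(G) Δ = (-1)^j e_j(z) Δ`, because the `z_k` are
roots of the Chern polynomial of `G`. So `(z_1 + ⋯ + z_r) Δ = 0`, and `(∑ z_k^m) Δ` is a nonzero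
multiple of `π^*x Δ`, hence primitive for the ample class `t ξ + z_1 + ⋯ + z_r`; finally
`π_*(Δ^2) = (-1)^(r(r-1)/2) r!`. The reduction to the middle dimension uses `X × ℙ^e`.
-/

set_option autoImplicit false

open CategoryTheory AlgebraicGeometry

universe u v w t

namespace Pool.Agent.Results.MP_361a6f_ag.AlternatingDivisorClasses

open Pool.Agent.H914 Pool.Agent.H914.VarClass Pool.Agent.H914.VarClass.Obj Pool.Agent.W492.BB
  Pool.Agent.TH133 Pool.Agent.K1H14.VD Pool.Agent.K1H14.HD

/-- **The standard conjecture of Hodge type and polynomials in divisor classes.** For a class of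
smooth projective varieties closed under products and projective bundles, the following are
equivalent:

* for all `X` of the class, `ξ` ample on `X`, `2j ≤ n = dim X` and `x ∈ CH^j(X)` with rational
  coefficients which is not homologically trivial and primitive for `ξ`:
  `(-1)^j deg (ξ^(n-2j) x^2) > 0` (the conjecture, Q1);
* the same only for `dim X = 2m` and classes `x = (D_1^i + ⋯ + D_r^i) ∏_{k < l} (D_l - D_k)` of
  codimension `m`, where `D_1, …, D_r` are divisor classes, `r ≥ 1`. -/
theorem result {k : Type u} [Field k] {𝒱 : VarClass k} (C : TheoryData.{u, v, 0} 𝒱 ℚ)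
    [IsChowProj C] (B : BundleData.{u, v, t} C) [IsBundles B] (P : PullData B) [IsPull P]
    (Amp : ∀ X : 𝒱.Obj, C.A X → Prop) [IsAmple P Amp] {K : Type w} [Field K]
    (H : WeilTheoryData.{u, v, w} C K) [IsWeilProj H] :
    HodgeType H Amp ↔ HodgeTypeAlternating H Amp :=
  hodge_iff (B := B) (P := P)

end Pool.Agent.Results.MP_361a6f_ag.AlternatingDivisorClasses
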