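import Pool.Agent.K1H98.HS.Main

/-!
# MP_361a6f_ag: the numerical standard conjecture of Hodge type for fourfolds of ruled type

Dimension four (and codimension two) is the first case in which the standard conjecture of Hodge type
is open in positive characteristic. We work modulo numerical equivalence (`HodgeNum`), on the smooth
projective varieties over an arbitrary field, with a class `Amp` of divisors having the well-known
properties of the ample divisors (`IsAmpleness`): the Hodge index theorem, `f^* L + ε A` is ample
for a surjective generically finite morphism `f` and ample `L`, `A`, and so on.

1. For a fourfold `X` and an ample divisor `D` the conjecture is equivalent to the following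
   property, which does not depend on `D`: the intersection form on the cycles of codimension two
   has fewer negative squares than the rank of the group of divisors modulo numerical equivalence. So
   if it holds for one ample divisor, then it holds for all of them.
2. The conjecture holds for every fourfold which is obtained (`Reachable`) from `ℙ¹`-bundles over
   **arbitrary** threefolds (and from fourfolds for which the conjecture is known for one ample
   divisor) by blowing up smooth points, curves and surfaces, by blowing down, and by passing from
   `X'` to `X` for surjective generically finite morphisms `f : X' ⟶ X` (for which a divisor `E` on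
   `X'` with `f^* L · E` numerically trivial has `f^* z · E` numerically trivial for all `z` of
   codimension two; this condition is void if `f` contracts no divisor to a point). So it is a
   birational invariant up to blow-ups, and it holds for fourfolds dominated by ruled ones.
3. If homological and numerical equivalence agree on such an `X`, the standard conjecture of Hodge
   type itself holds for `X` and all ample divisors.

The new ingredient is the descent along generically finite morphisms, by a limit argument: the
divisor `f^* L` is the limit of the ample divisors `f^* L + ε A`, and the classes `f^* x`, for `x`
primitive, are limits of primitive classes, although the hard Lefschetz theorem fails for `f^* L`.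
-/

set_option autoImplicit false

open CategoryTheory AlgebraicGeometry

universe u v

namespace Pool.Agent.Results.MP_361a6f_ag.RuledFourfolds

open Pool.Agent.H914 Pool.Agent.H914.VarClass Pool.Agent.H914.VarClass.Obj Pool.Agent.K1H98.HS

/-- **The numerical standard conjecture of Hodge type for fourfolds**: index criterion, independence of
the ample divisor, and the fourfolds of ruled type. -/
theorem result {k : Type u} [Field k] {𝒱 : VarClass k} {ops : CycleOps 𝒱}
    (W : WeilCohomology.{u, v} ops) (Amp : ∀ X : 𝒱.Obj, X.Cycles → Prop)
    (hAmp : IsAmpleness W Amp) :
    (∀ X : 𝒱.Obj, X.dim = 4 → ∀ D, Amp X D → (HodgeNum ops X D 2 ↔ FewNegativeSquares ops X)) ∧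
    (∀ X : 𝒱.Obj, X.dim = 4 → ∀ D D', Amp X D → Amp X D' → HodgeNum ops X D 2 →
      HodgeNum ops X D' 2) ∧
    (∀ X : 𝒱.Obj, Reachable W Amp X → ∀ D, Amp X D → HodgeNum ops X D 2 ∧
      (HomEqNum W X → HodgeType W X D)) := by
  refine ⟨fun X hX D hD => hodgeNum_iff_few W hX (hAmp.index X D hD),
    fun X hX D D' hD hD' h => ?_, fun X hX D hD => ?_⟩
  · rw [hodgeNum_iff_few W hX (hAmp.index X D' hD')]
    exact (hodgeNum_iff_few W hX (hAmp.index X D hD)).1 h
  · obtain ⟨h4, hF⟩ := reach W hAmp hX
    have hI := hAmp.index X D hD
    have h := hodgeNum_of_fewNeg W h4 hI hF
    exact ⟨h, hodgeType_of_num W h4 hI h⟩

end Pool.Agent.Results.MP_361a6f_ag.RuledFourfolds
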