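import Pool.Agent.K1H14.SD.Final2
import Pool.Agent.K1H14.SD.Defs2
import Pool.Agent.K1H94.SD.Clu

/-!
# MP_361a6f_ag: the standard conjecture of Hodge type for all powers of spin type abelian varieties

Let `A` be an abelian variety over a finitely generated field of characteristic `p` whose `ℓ`-adic
monodromy group is `GSpin(T)`, acting on `V_ℓ(A) ⊗ ℂ = W Q = C⁺(T)` by left multiplication, for
example the Kuga-Satake variety of a K3 surface with big monodromy; `T` is the transcendental part
of the second cohomology, `dim T = 22 - ρ`.  Every abelian variety whose `V_ℓ` is a multiple of the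
spin representation has a power which is isogenous to a power of such a variety.  Let `R n` be the
real span of the algebraic classes modulo numerical equivalence in `H¹(A)^{⊗ n}`.

**Theorem.** If `dim T` is three or five modulo eight (for example `ρ = 1, 3, 9, 11`), the standard
conjecture of Hodge type (modulo numerical equivalence) holds for all powers of `A`, in all
codimensions: the form on `R n` given by the polarization is positive definite. Nothing is assumed
on the algebraicity of Tate classes. For the other odd `dim T ≥ 5` the same is true if one algebraic
class is not killed by one test element (this is the case if the Tate conjecture holds for the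
powers of `A` and `dim T ≥ 7`).
-/

set_option autoImplicit false

namespace Pool.Agent.Results.MP_361a6f_ag.SpinTypeAbelianVarieties

open Pool.Agent.K1H14.KS Pool.Agent.K1H14.SD CliffordAlgebra

universe u

/-- **Positivity for the divisors and endomorphisms (`n = 2`) implies positivity for all `n`.** -/
theorem result {T : Type u} [AddCommGroup T] [Module ℂ T] (Q : QuadraticForm ℂ T)
    (hQ : Nondeg Q) (hd : Odd (Module.finrank ℂ T)) (h5 : 5 ≤ Module.finrank ℂ T)
    (R : ClassSys Q) (hR : IsMotivicSys R)
    (hX : (Module.finrank ℂ T % 8 = 3 ∨ Module.finrank ℂ T % 8 = 5) ∨ HasTestClass R)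
    (ψ : WForm Q 2) (hψ : Has R ψ) (m : ℕ) (b b' : Fin m → W Q) (hb : IsFrame ψ b b')
    (h2 : IsPositive R b b' 2) : ∀ n : ℕ, IsPositive R b b' n := by
  intro n f hf hf0
  exact hodge_final2 (R := R) @Pool.Agent.K1H94.SD.t_CLU hQ hd h5 hR.isRealMotivic hX hψ hb.1
    hb.2.1 hb.2.2 (fun f hf hf0 => h2 f hf hf0) n f hf hf0

end Pool.Agent.Results.MP_361a6f_ag.SpinTypeAbelianVarieties
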