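import Pool.Agent.K1H12.SL.DB

/-!
# More than half of positive squares infinitely often: all standard conjectures for all powers
-/

open CategoryTheory AlgebraicGeometry Filter Topology

universe u v

namespace Pool.Agent.Results.MP_361a6f_ag.SquaresDecideStandardConjectures

open Pool.Agent.H914 Pool.Agent.H914.VarClass Pool.Agent.H914.VarClass.Obj
open Pool.Agent.Y163 (pw sq)
open Pool.Agent.H447 (SignStd)
open Pool.Agent.R940 (algRank)
open Pool.Agent.K1H12.SL

/-- Let `W` be a Weil cohomology theory on a class of smooth projective varieties over a field, and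
let `D` be a divisor on `X` with `deg D ^ dim X > 0`, such that the hard Lefschetz theorem holds
for `X` and `D` and the sign conjecture holds for `X` (the projector onto the even cohomology is
algebraic; over finite fields both are theorems, for all smooth projective `X`). Let `b` be the
sum of the Betti numbers of `X`.

For each `n` let `p n` and `q n` be the numbers of positive and of negative squares of the form of
the standard conjecture of Hodge type on the primitive algebraic classes of all codimensions on
`X ^ (2 n + 2)`, and let `a n` be the dimension of the space spanned by the algebraic classes of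
the middle codimension `(n + 1) dim X` on `X ^ (2 n + 2)`. Then `0 < a n` and `p n + q n ≤ a n`,
and `p n = a n` implies the conjecture of Hodge type for `X ^ (2 n + 2)`; the converse holds if
the Lefschetz standard conjecture holds for `X`.

The Lefschetz standard conjecture, the coincidence of homological and numerical equivalence and
the conjecture of Hodge type hold for all powers of `X` if and only if there is `ε > 0` such that
`p n ≥ (1 / 2 + ε) a n` for infinitely many `n`. Precisely, one of the following holds:

* the three conjectures hold for all powers of `X`, and `p n = a n` for all `n`;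
* the Lefschetz standard conjecture and the coincidence of homological and numerical equivalence
  hold for all powers of `X`, there is a negative class on some power of `X`, and if there is one
  on `X ^ (κ + 1)`, then
  `|p n - q n| ≤ (n + 2) ^ (b ^ 2) * (1 - 2 / b ^ (κ + 1)) ^ ⌊(2 n + 1) / (κ + 1)⌋ * a n`, where
  `p n + q n = a n`; in particular `p n / a n` tends to `1 / 2`;
* homological and numerical equivalence differ on some power of `X`, and if they differ on
  `X ^ (κ + 1)`, then `log (n + 2) * (p n + q n) ≤ 32 (κ + 1) (1 + log (b + 1)) * a n`; in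
  particular `(p n + q n) / a n` tends to `0`. -/
theorem result {k : Type u} [Field k] {𝒱 : VarClass k} {ops : CycleOps 𝒱}
    (W : WeilCohomology.{u, v} ops) (X : 𝒱.Obj) (D : X.Cycles) (hD : X.IsCyc 1 D)
    (hHL : HardLefschetz W X D) (hS : SignStd W X)
    (hpos : 0 < X.V.degCycle (divPow ops D X.dim X.V.fundCycle)) :
    let b := R940.betti W X
    let p := fun n => posTot W (sq X n) (dsq ops X D n)
    let q := fun n => negTot W (sq X n) (dsq ops X D n)
    let a := fun n => algRank W (sq X n) ((n + 1) * X.dim)
    (∀ n, 0 < a n ∧ p n + q n ≤ a n ∧ (p n = a n → HodgeType W (sq X n) (dsq ops X D n)) ∧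
      (LefschetzB W X D → HodgeType W (sq X n) (dsq ops X D n) → p n = a n)) ∧
    ((∀ m, LefschetzB W (pw X m) (dpw ops X D m) ∧ HomEqNum W (pw X m) ∧
        HodgeType W (pw X m) (dpw ops X D m)) ↔
      ∃ ε : ℝ, 0 < ε ∧ ∃ᶠ n in atTop, (1 / 2 + ε) * (a n : ℝ) ≤ p n) ∧
    (((∀ m, LefschetzB W (pw X m) (dpw ops X D m) ∧ HomEqNum W (pw X m) ∧
        HodgeType W (pw X m) (dpw ops X D m)) ∧ ∀ n, p n = a n) ∨
      ((∀ m, LefschetzB W (pw X m) (dpw ops X D m) ∧ HomEqNum W (pw X m)) ∧
        (∀ n, p n + q n = a n) ∧ (∃ κ, NegClass W (pw X κ) (dpw ops X D κ)) ∧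
        (∀ κ, NegClass W (pw X κ) (dpw ops X D κ) → ∀ n : ℕ,
          |(p n : ℝ) - q n| ≤ ((n : ℝ) + 2) ^ (b ^ 2) *
            (1 - 2 / (b : ℝ) ^ (κ + 1)) ^ ((2 * n + 1) / (κ + 1)) * a n) ∧
        Tendsto (fun n => (p n : ℝ) / a n) atTop (𝓝 (1 / 2))) ∨
      ((∃ κ, ¬ HomEqNum W (pw X κ)) ∧
        (∀ κ, ¬ HomEqNum W (pw X κ) → ∀ n : ℕ, Real.log ((n : ℝ) + 2) * ((p n : ℝ) + q n) ≤
          32 * ((κ : ℝ) + 1) * (1 + Real.log ((b : ℝ) + 1)) * a n) ∧
        Tendsto (fun n => ((p n : ℝ) + q n) / a n) atTop (𝓝 0))) := by
  intro b p q a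
  obtain ⟨hA, h1⟩ := law2 hD hHL hS hpos
  refine ⟨fun n => ⟨(hA n).1, (hA n).2.1, (hA n).2.2, fun hB hH => ?_⟩,
    law2_test hD hHL hS hpos, h1⟩
  exact (((law hD hHL hB hpos).1 n).2.2).1 hH

end Pool.Agent.Results.MP_361a6f_ag.SquaresDecideStandardConjectures
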